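import Mathlib

/-!
# Exact factorizations of countable groups into two infinite subsets: basic lemmas
-/

namespace Pool.Agent.Q93.EF

/-- `G` has an exact factorization `G = AB` with `A` and `B` infinite. -/
def Good (G : Type*) [Group G] : Prop :=
  ∃ A B : Set G, A.Infinite ∧ B.Infinite ∧
    ∀ g : G, ∃! p : G × G, p.1 ∈ A ∧ p.2 ∈ B ∧ p.1 * p.2 = g

variable {G : Type*} [Group G]

theorem isCompl_unique {S T : Set G} (h : Subgroup.IsComplement S T) (g : G) :
    ∃! p : G × G, p.1 ∈ S ∧ p.2 ∈ T ∧ p.1 * p.2 = g := by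
  obtain ⟨x, hx, hu⟩ := Subgroup.isComplement_iff_existsUnique.1 h g
  refine ⟨(x.1.1, x.2.1), ⟨x.1.2, x.2.2, hx⟩, ?_⟩
  rintro ⟨a, b⟩ ⟨ha, hb, hab⟩
  have := hu (⟨a, ha⟩, ⟨b, hb⟩) hab
  rw [← this]

/-- An infinite subgroup of infinite index yields a good factorization. -/
theorem good_of_subgroup (H : Subgroup G) (hH : (H : Set G).Infinite) (hi : ¬ H.FiniteIndex) :
    Good G := by
  obtain ⟨S, hS, -⟩ := Subgroup.exists_isComplement_left H 1
  refine ⟨S, H, ?_, hH, fun g => isCompl_unique hS g⟩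
  intro hfin
  exact hi (hS.finite_left_iff.1 hfin.to_subtype)

/-- Goodness of a subgroup passes to the group. -/
theorem good_of_good_subgroup (H : Subgroup G) (hH : Good H) : Good G := by
  obtain ⟨A, B, hA, hB, hAB⟩ := hH
  obtain ⟨T, hT, -⟩ := Subgroup.exists_isComplement_right H 1
  refine ⟨(fun a : H => (a : G)) '' A, {g | ∃ b ∈ B, ∃ t ∈ T, g = (b : G) * t}, ?_, ?_, ?_⟩
  · exact hA.image (fun a _ b _ h => Subtype.ext h)
  · obtain ⟨t, ht⟩ := hT.nonempty_right
    have h1 : ((fun b : H => (b : G) * t) '' B).Infinite := by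
      apply hB.image
      intro a _ b _ h
      have : (a : G) = b := mul_right_cancel h
      exact Subtype.ext this
    apply h1.mono
    rintro g ⟨b, hb, rfl⟩
    exact ⟨b, hb, t, ht, rfl⟩
  · intro g
    obtain ⟨⟨h, t⟩, ⟨hh, ht, hht⟩, hu⟩ := isCompl_unique hT g
    simp only at hh ht hht
    obtain ⟨⟨a, b⟩, ⟨ha, hb, hab⟩, hu2⟩ := hAB ⟨h, hh⟩
    simp only at ha hb hab
    refine ⟨((a : G), (b : G) * t), ⟨⟨a, ha, rfl⟩, ⟨b, hb, t, ht, rfl⟩, ?_⟩, ?_⟩
    · have : (a : G) * (b : G) = h := by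
        have := congrArg Subtype.val hab
        simpa using this
      simp only
      rw [← mul_assoc, this, hht]
    · rintro ⟨x, y⟩ ⟨⟨a', ha', hx⟩, ⟨b', hb', t', ht', hy⟩, hxy⟩
      simp only at hx hy hxy
      subst hx
      subst hy
      have h1 := hu (((a' * b' : H) : G), t') ⟨(a' * b').2, ht', by
        simp only [Subgroup.coe_mul]
        rw [mul_assoc]; exact hxy⟩
      have h2 : ((a' * b' : H) : G) = h := congrArg Prod.fst h1
      have h3 : t' = t := congrArg Prod.snd h1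
      have h4 : a' * b' = ⟨h, hh⟩ := Subtype.ext h2
      have h5 := hu2 (a', b') ⟨ha', hb', h4⟩
      have h6 : a' = a := congrArg Prod.fst h5
      have h7 : b' = b := congrArg Prod.snd h5
      rw [h6, h7, h3]

/-- The product map is injective on `A × B`. -/
def Direct (A B : Finset G) : Prop :=
  ∀ a ∈ A, ∀ a' ∈ A, ∀ b ∈ B, ∀ b' ∈ B, a * b = a' * b' → a = a' ∧ b = b'

/-- The extension property used by the greedy construction. -/
def Step (G : Type*) [Group G] : Prop :=
  ∀ (A B : Finset G) (g : G), (∀ a ∈ A, ∀ b ∈ B, a * b ≠ g) → ∀ F : Set G, F.Finite →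
    ∃ x ∉ F, ∀ a ∈ A, ∀ b ∈ B, x * (b * g⁻¹) * x ≠ a

theorem step_extend (hstep : Step G) [DecidableEq G] {A B : Finset G} (hA : (1 : G) ∈ A)
    (hB : (1 : G) ∈ B)
    (hd : Direct A B) {g : G} (hg : ∀ a ∈ A, ∀ b ∈ B, a * b ≠ g) :
    ∃ x y : G, x ∉ A ∧ y ∉ B ∧ x * y = g ∧ Direct (insert x A) (insert y B) := by
  obtain ⟨x, hxF, hx⟩ := hstep A B g hg
    (((fun p : G × G × G => p.1 * p.2.1 * p.2.2⁻¹) '' ((A ×ˢ B ×ˢ B : Finset (G × G × G)) : Set _)) ∪
      ((fun p : G × G × G => g * p.1⁻¹ * p.2.1⁻¹ * p.2.2) ''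
        ((B ×ˢ A ×ˢ A : Finset (G × G × G)) : Set _)))
    (((Finset.finite_toSet _).image _).union ((Finset.finite_toSet _).image _))
  have h1 : ∀ a ∈ A, ∀ b ∈ B, ∀ b' ∈ B, x * b' ≠ a * b := by
    intro a ha b hb b' hb' h
    apply hxF
    left
    refine ⟨(a, b, b'), by simp [ha, hb, hb'], ?_⟩
    simp only
    rw [← h]; group
  have h2 : ∀ a ∈ A, ∀ a' ∈ A, ∀ b ∈ B, a' * (x⁻¹ * g) ≠ a * b := by
    intro a ha a' ha' b hb h
    apply hxF
    right
    refine ⟨(b, a, a'), by simp [ha, hb, ha'], ?_⟩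
    simp only
    have : g * b⁻¹ * a⁻¹ * a' = x := by
      have h3 : g = x * a'⁻¹ * (a * b) := by rw [← h]; group
      rw [h3]; group
    exact this
  have h3 : ∀ b ∈ B, x * b ≠ g := by
    intro b hb h
    have := h2 1 hA 1 hA b hb
    apply this
    rw [← h]; group
  have h4 : ∀ a ∈ A, a * (x⁻¹ * g) ≠ g := by
    intro a ha h
    have : a = x := by
      have h5 : a * (x⁻¹ * g) = 1 * g := by simpa using h
      have h6 : a * x⁻¹ = 1 := by
        apply mul_right_cancel (b := g)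
        simpa [mul_assoc] using h
      exact mul_inv_eq_one.1 h6
    apply h1 a ha 1 hB 1 hB
    rw [this]
  have h5 : ∀ a ∈ A, ∀ b ∈ B, x * b ≠ a * (x⁻¹ * g) := by
    intro a ha b hb h
    apply hx a ha b hb
    have : x * (b * g⁻¹) * x = (x * b) * (g⁻¹ * x) := by group
    rw [this, h]; group
  refine ⟨x, x⁻¹ * g, ?_, ?_, by group, ?_⟩
  · intro h
    exact h1 x h 1 hB 1 hB rfl
  · intro h
    exact h3 _ h (by group)
  · intro a ha a' ha' b hb b' hb' hab
    rw [Finset.mem_insert] at ha ha' hb hb'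
    rcases ha with rfl | ha <;> rcases ha' with rfl | ha' <;> rcases hb with rfl | hb <;>
      rcases hb' with rfl | hb'
    · exact ⟨rfl, rfl⟩
    · exact absurd (by rw [← hab]; group) (h3 b' hb')
    · exact absurd (by rw [hab]; group) (h3 b hb)
    · exact ⟨rfl, mul_left_cancel hab⟩
    · exact absurd (by rw [← hab]; group) (h4 a' ha')
    · exact absurd (by rw [← hab]; group) (hg a' ha' b' hb')
    · exact absurd hab (h5 a' ha' b hb)
    · exact absurd hab (h1 a' ha' b' hb' b hb)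
    · exact absurd (by rw [hab]; group) (h4 a ha)
    · exact absurd hab.symm (h5 a ha b' hb')
    · exact absurd (by rw [hab]; group) (hg a ha b hb)
    · exact absurd hab.symm (h1 a ha b hb b' hb')
    · exact ⟨mul_right_cancel hab, rfl⟩
    · exact absurd hab (h2 a' ha' a ha b' hb')
    · exact absurd hab.symm (h2 a ha a' ha' b hb)
    · exact hd a ha a' ha' b hb b' hb' hab

/-- A state of the greedy construction. -/
structure State (G : Type*) [Group G] where
  A : Finset G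
  B : Finset G
  oneA : (1 : G) ∈ A
  oneB : (1 : G) ∈ B
  direct : Direct A B

theorem State.next (hstep : Step G) [Infinite G] (s : State G) (g : G) :
    ∃ s' : State G, s.A ⊂ s'.A ∧ s.B ⊂ s'.B ∧ ∃ a ∈ s'.A, ∃ b ∈ s'.B, a * b = g := by
  classical
  have key : ∀ g' : G, (∀ a ∈ s.A, ∀ b ∈ s.B, a * b ≠ g') →
      ∃ s' : State G, s.A ⊂ s'.A ∧ s.B ⊂ s'.B ∧ ∃ a ∈ s'.A, ∃ b ∈ s'.B, a * b = g' := by
    intro g' hg'
    obtain ⟨x, y, hx, hy, hxy, hd⟩ := step_extend hstep s.oneA s.oneB s.direct hg'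
    exact ⟨⟨insert x s.A, insert y s.B, Finset.mem_insert_of_mem s.oneA,
      Finset.mem_insert_of_mem s.oneB, hd⟩, Finset.ssubset_insert hx, Finset.ssubset_insert hy,
      x, Finset.mem_insert_self _ _, y, Finset.mem_insert_self _ _, hxy⟩
  by_cases hg : ∀ a ∈ s.A, ∀ b ∈ s.B, a * b ≠ g
  · exact key g hg
  · push Not at hg
    obtain ⟨a, ha, b, hb, hab⟩ := hg
    obtain ⟨g', hg'⟩ := Infinite.exists_notMem_finset
      ((s.A ×ˢ s.B).image (fun p : G × G => p.1 * p.2))
    obtain ⟨s', h1, h2, -⟩ := key g' (by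
      intro a ha b hb h
      apply hg'
      rw [Finset.mem_image]
      exact ⟨(a, b), by simp [ha, hb], h⟩)
    exact ⟨s', h1, h2, a, h1.1 ha, b, h2.1 hb, hab⟩

/-- The greedy construction. -/
theorem good_of_step [Countable G] [Infinite G] (hstep : Step G) : Good G := by
  classical
  obtain ⟨e, he⟩ := exists_surjective_nat G
  choose nx hnx using fun (s : State G) (g : G) => State.next hstep s g
  let s0 : State G := ⟨{1}, {1}, by simp, by simp, by
    intro a ha a' ha' b hb b' hb' _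
    simp only [Finset.mem_singleton] at ha ha' hb hb'
    exact ⟨by rw [ha, ha'], by rw [hb, hb']⟩⟩
  let S : ℕ → State G := fun n => Nat.rec s0 (fun n s => nx s (e n)) n
  have hS : ∀ n, S (n + 1) = nx (S n) (e n) := fun n => rfl
  have hA : StrictMono fun n => (S n).A := strictMono_nat_of_lt_succ (fun n => by
    rw [hS]; exact (hnx (S n) (e n)).1)
  have hB : StrictMono fun n => (S n).B := strictMono_nat_of_lt_succ (fun n => by
    rw [hS]; exact (hnx (S n) (e n)).2.1)
  have hinf : ∀ F : ℕ → Finset G, StrictMono F → (⋃ n, (F n : Set G)).Infinite := by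
    intro F hF hfin
    have hc : ∀ n, n ≤ (F n).card := by
      intro n
      induction n with
      | zero => exact Nat.zero_le _
      | succ n ih =>
        exact lt_of_le_of_lt ih (Finset.card_lt_card (hF (Nat.lt_succ_self n)))
    have h1 : ∀ n, (F n).card ≤ hfin.toFinset.card := fun n =>
      Finset.card_le_card (fun x hx => by
        rw [Set.Finite.mem_toFinset]
        exact Set.mem_iUnion.2 ⟨n, hx⟩)
    have := h1 (hfin.toFinset.card + 1)
    have := hc (hfin.toFinset.card + 1)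
    omega
  refine ⟨⋃ n, ((S n).A : Set G), ⋃ n, ((S n).B : Set G), hinf _ hA, hinf _ hB, ?_⟩
  intro g
  obtain ⟨n, rfl⟩ := he g
  obtain ⟨a, ha, b, hb, hab⟩ := (hnx (S n) (e n)).2.2
  rw [← hS] at ha hb
  refine ⟨(a, b), ⟨Set.mem_iUnion.2 ⟨n + 1, ha⟩, Set.mem_iUnion.2 ⟨n + 1, hb⟩, hab⟩, ?_⟩
  rintro ⟨a', b'⟩ ⟨ha', hb', hab'⟩
  obtain ⟨m, hm⟩ := Set.mem_iUnion.1 ha'
  obtain ⟨k, hk⟩ := Set.mem_iUnion.1 hb'
  simp only at hm hk hab'
  have hm' : a' ∈ (S (m + k + n + 1)).A := hA.monotone (by omega : m ≤ m + k + n + 1) hm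
  have hk' : b' ∈ (S (m + k + n + 1)).B := hB.monotone (by omega : k ≤ m + k + n + 1) hk
  have ha1 : a ∈ (S (m + k + n + 1)).A := hA.monotone (by omega : n + 1 ≤ m + k + n + 1) ha
  have hb1 : b ∈ (S (m + k + n + 1)).B := hB.monotone (by omega : n + 1 ≤ m + k + n + 1) hb
  obtain ⟨h1, h2⟩ := (S (m + k + n + 1)).direct a' hm' a ha1 b' hk' b hb1 (hab'.trans hab.symm)
  rw [h1, h2]

end Pool.Agent.Q93.EF
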