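import Pool.Agent.Q93.EF.Basic

/-!
# The two cases in which the greedy extension property holds
-/

namespace Pool.Agent.Q93.EF

variable {G : Type*} [Group G]

omit [Group G] in
/-- A finite set does not exhaust an infinite group. -/
theorem exists_not_mem_of_finite [Infinite G] (F : Set G) (hF : F.Finite) : ∃ x, x ∉ F := by
  by_contra h
  push Not at h
  exact Set.infinite_univ (hF.subset (fun x _ => h x))

theorem abelian_good {G : Type*} [CommGroup G] [Countable G] [Infinite G] : Good G := by
  by_cases h2 : {x : G | x ^ 2 = 1}.Finite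
  · apply good_of_step
    intro A B g _ F hF
    have hfin : ∀ h : G, {x : G | x ^ 2 = h}.Finite := by
      intro h
      by_cases hne : ∃ x0 : G, x0 ^ 2 = h
      · obtain ⟨x0, hx0⟩ := hne
        apply (h2.image (fun y => y * x0)).subset
        intro x hx
        refine ⟨x * x0⁻¹, ?_, by simp⟩
        simp only [Set.mem_ofPred_eq] at hx ⊢
        rw [mul_pow, hx, inv_pow, hx0, mul_inv_cancel]
      · have : {x : G | x ^ 2 = h} = ∅ := by
          ext x
          simp only [Set.mem_ofPred_eq, Set.mem_empty_iff_false, iff_false]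
          intro hx
          exact hne ⟨x, hx⟩
        rw [this]; exact Set.finite_empty
    obtain ⟨x, hx⟩ := exists_not_mem_of_finite
      (F ∪ ⋃ a ∈ A, ⋃ b ∈ B, {x : G | x ^ 2 = a * (b * g⁻¹)⁻¹})
      (hF.union (A.finite_toSet.biUnion fun a _ => B.finite_toSet.biUnion fun b _ => hfin _))
    refine ⟨x, fun h => hx (Or.inl h), fun a ha b hb h => hx (Or.inr ?_)⟩
    refine Set.mem_biUnion ha (Set.mem_biUnion hb ?_)
    simp only [Set.mem_ofPred_eq]
    rw [← h, pow_two]
    rw [mul_comm (x * (b * g⁻¹)) x]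
    group
  · -- the subgroup of elements of order at most two
    let H : Subgroup G := (powMonoidHom 2 : G →* G).ker
    have hH : ∀ x : H, (x : G) * x = 1 := by
      intro x
      have := x.2
      rw [MonoidHom.mem_ker, powMonoidHom_apply, pow_two] at this
      exact this
    have : Infinite H := by
      have : (H : Set G).Infinite := by
        intro hf
        apply h2
        apply hf.subset
        intro x hx
        exact hx
      exact this.to_subtype
    apply good_of_good_subgroup H
    apply good_of_step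
    intro A B g hg F hF
    obtain ⟨x, hx⟩ := exists_not_mem_of_finite F hF
    refine ⟨x, hx, fun a ha b hb h => ?_⟩
    apply hg a ha b hb
    have e1 : ∀ y : H, y * y = 1 := fun y => Subtype.ext (by simpa using hH y)
    have h3 : b * g⁻¹ = a := by
      calc b * g⁻¹ = (x * x) * (b * g⁻¹) := by rw [e1, one_mul]
        _ = x * (b * g⁻¹) * x := by
          rw [mul_assoc x (b * g⁻¹) x, mul_comm (b * g⁻¹) x, mul_assoc x x]
        _ = a := h
    have h4 : b = a * g := by rw [← h3]; group
    rw [h4, ← mul_assoc, e1, one_mul]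

/-- Infinite groups with finite centre in which noncentral elements have finite centralizers. -/
theorem step_of_finite_centralizers [Infinite G] (hZ : (Subgroup.center G : Set G).Finite)
    (hC : ∀ d : G, d ∉ Subgroup.center G → {x : G | x * d = d * x}.Finite) : Step G := by
  intro A B g _ F hF
  by_contra hcon
  push Not at hcon
  -- the set of elements whose square is central
  let J : Set G := {y | y * y ∈ Subgroup.center G}
  have hJd : ∀ d : G, d ∉ Subgroup.center G → {y | y ∈ J ∧ y * d ∈ J}.Finite := by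
    intro d hd
    -- y d y⁻¹ ∈ Z d⁻¹
    have hfib : ∀ e : G, {y : G | y * d * y⁻¹ = e}.Finite := by
      intro e
      by_cases hne : ∃ y0 : G, y0 * d * y0⁻¹ = e
      · obtain ⟨y0, hy0⟩ := hne
        apply ((hC d hd).image (fun x => y0 * x)).subset
        intro y hy
        refine ⟨y0⁻¹ * y, ?_, by group⟩
        simp only [Set.mem_ofPred_eq] at hy ⊢
        have h1 : y * d * y⁻¹ = y0 * d * y0⁻¹ := hy.trans hy0.symm
        calc y0⁻¹ * y * d = y0⁻¹ * (y * d * y⁻¹) * y := by group
          _ = y0⁻¹ * (y0 * d * y0⁻¹) * y := by rw [h1]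
          _ = d * (y0⁻¹ * y) := by group
      · have : {y : G | y * d * y⁻¹ = e} = ∅ := by
          ext x
          simp only [Set.mem_ofPred_eq, Set.mem_empty_iff_false, iff_false]
          intro hx
          exact hne ⟨x, hx⟩
        rw [this]; exact Set.finite_empty
    apply (hZ.biUnion (fun z _ => hfib (z * d⁻¹))).subset
    rintro y ⟨hy1, hy2⟩
    -- z := y d y d (y y)⁻¹
    have hz : y * d * (y * d) * (y * y)⁻¹ ∈ Subgroup.center G :=
      Subgroup.mul_mem _ hy2 (Subgroup.inv_mem _ hy1)
    refine Set.mem_biUnion hz ?_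
    simp only [Set.mem_ofPred_eq]
    have hc : d * (y * y)⁻¹ = (y * y)⁻¹ * d :=
      Subgroup.mem_center_iff.1 (Subgroup.inv_mem _ hy1) d
    calc y * d * y⁻¹ = y * d * y * (y * y)⁻¹ := by group
      _ = y * d * y * ((y * y)⁻¹ * d) * d⁻¹ := by group
      _ = y * d * y * (d * (y * y)⁻¹) * d⁻¹ := by rw [hc]
      _ = y * d * (y * d) * (y * y)⁻¹ * d⁻¹ := by group
  -- cover
  let C0 : Set G := (fun b => b * g⁻¹) '' (B : Set G)
  have hC0 : C0.Finite := B.finite_toSet.image _
  have hcov : ∃ F' : Set G, F'.Finite ∧ ∀ x, x ∈ F' ∨ ∃ c ∈ C0, x * c ∈ J := by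
    refine ⟨F ∪ ⋃ a ∈ A, ⋃ b ∈ B, {x : G | a * (b * g⁻¹) ∉ Subgroup.center G ∧
      (x * (b * g⁻¹)) * (a * (b * g⁻¹)) = (a * (b * g⁻¹)) * (x * (b * g⁻¹))}, ?_, ?_⟩
    · refine hF.union (A.finite_toSet.biUnion fun a _ => B.finite_toSet.biUnion fun b _ => ?_)
      by_cases hac : a * (b * g⁻¹) ∈ Subgroup.center G
      · have : {x : G | a * (b * g⁻¹) ∉ Subgroup.center G ∧
            (x * (b * g⁻¹)) * (a * (b * g⁻¹)) = (a * (b * g⁻¹)) * (x * (b * g⁻¹))} = ∅ := by
          ext x
          simp [hac]
        rw [this]; exact Set.finite_empty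
      · apply ((hC _ hac).image (fun y => y * (b * g⁻¹)⁻¹)).subset
        rintro x ⟨-, hx⟩
        exact ⟨x * (b * g⁻¹), hx, by group⟩
    · intro x
      by_cases hxF : x ∈ F
      · exact Or.inl (Or.inl hxF)
      · obtain ⟨a, ha, b, hb, h⟩ := hcon x hxF
        by_cases hac : a * (b * g⁻¹) ∈ Subgroup.center G
        · right
          refine ⟨b * g⁻¹, ⟨b, hb, rfl⟩, ?_⟩
          change x * (b * g⁻¹) * (x * (b * g⁻¹)) ∈ Subgroup.center G
          rw [← mul_assoc, h]
          exact hac
        · left; right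
          refine Set.mem_biUnion ha (Set.mem_biUnion hb ⟨hac, ?_⟩)
          rw [← h]; group
  obtain ⟨F', hF', hcov⟩ := hcov
  -- choose g0
  obtain ⟨g0, hg0⟩ := exists_not_mem_of_finite
    (⋃ c ∈ C0, (fun z => z * c⁻¹) '' (Subgroup.center G : Set G))
    (hC0.biUnion fun c _ => hZ.image _)
  have hJfin : J.Finite := by
    have : (F' ∪ ⋃ c ∈ C0, {y | y ∈ J ∧ y * (g0 * c) ∈ J} ∪ (fun x => x * g0⁻¹) '' F').Finite := by
      refine hF'.union (hC0.biUnion fun c hc => (hJd _ ?_).union (hF'.image _))
      intro hz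
      apply hg0
      refine Set.mem_biUnion hc ⟨g0 * c, hz, by group⟩
    have h2 : ((fun x => x * g0⁻¹) '' F' ∪
        ⋃ c ∈ C0, {y | y ∈ J ∧ y * (g0 * c) ∈ J}).Finite := by
      refine (hF'.image _).union (hC0.biUnion fun c hc => (hJd _ ?_))
      intro hz
      apply hg0
      refine Set.mem_biUnion hc ⟨g0 * c, hz, by group⟩
    apply h2.subset
    intro y hy
    rcases hcov (y * g0) with h | ⟨c, hc, h⟩
    · left; exact ⟨y * g0, h, by group⟩
    · right
      refine Set.mem_biUnion hc ⟨hy, ?_⟩
      rw [← mul_assoc]; exact h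
  have huniv : (F' ∪ ⋃ c ∈ C0, (fun y => y * c⁻¹) '' J).Finite :=
    hF'.union (hC0.biUnion fun c _ => hJfin.image _)
  obtain ⟨x, hx⟩ := exists_not_mem_of_finite _ huniv
  apply hx
  rcases hcov x with h | ⟨c, hc, h⟩
  · exact Or.inl h
  · exact Or.inr (Set.mem_biUnion hc ⟨x * c, h, by group⟩)

end Pool.Agent.Q93.EF
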