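import Pool.Agent.Q93.EF.Cases

/-!
# Every countably infinite group has an exact factorization into two infinite subsets
-/

namespace Pool.Agent.Q93.EF

variable {G : Type*} [Group G]

/-- If no subgroup is good, infinite subgroups have finite index. -/
theorem finiteIndex_of_infinite (hG : ¬ Good G) (H : Subgroup G) (hH : (H : Set G).Infinite) :
    H.FiniteIndex := by
  by_contra h
  exact hG (good_of_subgroup H hH h)

theorem finite_of_comm [Countable G] (hG : ¬ Good G) (H : Subgroup G)
    (hH : ∀ x ∈ H, ∀ y ∈ H, x * y = y * x) : (H : Set G).Finite := by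
  by_contra hinf
  have : Infinite H := Set.Infinite.to_subtype hinf
  let : CommGroup H := { (inferInstance : Group H) with
    mul_comm := fun a b => Subtype.ext (hH a a.2 b b.2) }
  exact hG (good_of_good_subgroup H abelian_good)

/-- The FC-centre. -/
def FCc (G : Type*) [Group G] : Subgroup G where
  carrier := {x | (Subgroup.centralizer {x}).FiniteIndex}
  one_mem' := by
    have : Subgroup.centralizer {(1 : G)} = ⊤ := by
      ext x; simp [Subgroup.mem_centralizer_iff]
    simp only [Set.mem_ofPred_eq, this]
    infer_instance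
  mul_mem' := by
    intro a b ha hb
    simp only [Set.mem_ofPred_eq] at ha hb ⊢
    have := ha
    have := hb
    apply Subgroup.finiteIndex_of_le (H := Subgroup.centralizer {a} ⊓ Subgroup.centralizer {b})
    intro x hx
    rw [Subgroup.mem_inf, Subgroup.mem_centralizer_singleton_iff,
      Subgroup.mem_centralizer_singleton_iff] at hx
    rw [Subgroup.mem_centralizer_singleton_iff]
    rw [mul_assoc, ← hx.2, ← mul_assoc, hx.1, mul_assoc] 
  inv_mem' := by
    intro a ha
    simp only [Set.mem_ofPred_eq] at ha ⊢
    have := ha
    apply Subgroup.finiteIndex_of_le (H := Subgroup.centralizer {a})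
    intro x hx
    rw [Subgroup.mem_centralizer_singleton_iff] at hx ⊢
    have h1 : a⁻¹ * (x * a) * a⁻¹ = a⁻¹ * (a * x) * a⁻¹ := by rw [hx]
    have h2 : a⁻¹ * (x * a) * a⁻¹ = a⁻¹ * x := by group
    have h3 : a⁻¹ * (a * x) * a⁻¹ = x * a⁻¹ := by group
    rw [h2, h3] at h1
    exact h1.symm

theorem infinite_of_finiteIndex [Infinite G] (H : Subgroup G) [H.FiniteIndex] :
    (H : Set G).Infinite := by
  intro hf
  have : Finite H := hf.to_subtype
  exact not_finite_iff_infinite.2 ‹_› (Subgroup.finite_iff_finite_and_finiteIndex (H := H) |>.2 ⟨this, ‹_›⟩)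

/-- The FC-centre is finite if no subgroup is good. -/
theorem fc_finite [Countable G] [Infinite G] (hG : ¬ Good G) : (FCc G : Set G).Finite := by
  by_contra hinf
  have hFfi : (FCc G).FiniteIndex := finiteIndex_of_infinite hG _ hinf
  obtain ⟨S, hS⟩ := zorn_subset {S : Set G | S ⊆ FCc G ∧ ∀ x ∈ S, ∀ y ∈ S, x * y = y * x} (by
    intro c hc hchain
    refine ⟨⋃₀ c, ⟨?_, ?_⟩, fun s hs => Set.subset_sUnion_of_mem hs⟩
    · exact Set.sUnion_subset fun s hs => (hc hs).1
    · rintro x ⟨s, hs, hx⟩ y ⟨t, ht, hy⟩
      rcases hchain.total hs ht with h | h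
      · exact (hc ht).2 x (h hx) y hy
      · exact (hc hs).2 x hx y (h hy))
  obtain ⟨⟨hSF, hSc⟩, hmax⟩ := hS
  -- `S` is finite
  have h1 : Subgroup.closure S ≤ Subgroup.centralizer S := by
    rw [Subgroup.closure_le]
    intro x hx
    rw [SetLike.mem_coe, Subgroup.mem_centralizer_iff]
    intro y hy
    exact hSc y hy x hx
  have hfinS : S.Finite := by
    apply (finite_of_comm hG (Subgroup.closure S) ?_).subset Subgroup.subset_closure
    intro x hx y hy
    have hx' := Subgroup.closure_le_centralizer_centralizer S hx
    rw [Subgroup.mem_centralizer_iff] at hx'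
    exact (hx' y (h1 hy)).symm
  -- its centralizer has finite index
  have : Finite S := hfinS.to_subtype
  have hCfi : (⨅ s : S, Subgroup.centralizer {(s : G)}).FiniteIndex :=
    Subgroup.finiteIndex_iInf (fun s => hSF s.2)
  have hbig : ((FCc G ⊓ ⨅ s : S, Subgroup.centralizer {(s : G)} : Subgroup G) : Set G).Infinite :=
    infinite_of_finiteIndex _
  obtain ⟨x, hx, hxS⟩ := hbig.exists_notMem_finset hfinS.toFinset
  rw [Set.Finite.mem_toFinset] at hxS
  rw [SetLike.mem_coe, Subgroup.mem_inf, Subgroup.mem_iInf] at hx
  have hxc : ∀ s ∈ S, x * s = s * x := by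
    intro s hs
    have := hx.2 ⟨s, hs⟩
    rwa [Subgroup.mem_centralizer_singleton_iff] at this
  apply hxS
  refine hmax (y := insert x S) ⟨?_, ?_⟩ (Set.subset_insert _ _) (Set.mem_insert _ _)
  · exact Set.insert_subset hx.1 hSF
  · intro a ha b hb
    rcases Set.mem_insert_iff.1 ha with h1 | h1 <;> rcases Set.mem_insert_iff.1 hb with h2 | h2
    · rw [h1, h2]
    · rw [h1]; exact hxc b h2
    · rw [h2]; exact (hxc a h1).symm
    · exact hSc a h1 b h2

/-- **Main theorem.** Every countably infinite group has an exact factorization with two infinite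
factors. -/
theorem good_of_countable (G : Type*) [Group G] [Countable G] [Infinite G] : Good G := by
  by_contra hG
  have hFC := fc_finite hG
  have : Finite (FCc G) := hFC.to_subtype
  let K : Subgroup G := ⨅ s : FCc G, Subgroup.centralizer {(s : G)}
  have hK : K.FiniteIndex := Subgroup.finiteIndex_iInf (fun s => s.2)
  have hKinf : (K : Set G).Infinite := infinite_of_finiteIndex _
  have : Infinite K := hKinf.to_subtype
  refine hG (good_of_good_subgroup K (good_of_step (step_of_finite_centralizers ?_ ?_)))
  · -- the centre of `K` is finite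
    have h1 : (((Subgroup.center K).map K.subtype : Subgroup G) : Set G).Finite := by
      apply finite_of_comm hG
      rintro _ ⟨x, hx, rfl⟩ _ ⟨y, hy, rfl⟩
      have := Subgroup.mem_center_iff.1 hx y
      simp only [Subgroup.coe_subtype]
      rw [← Subgroup.coe_mul, ← Subgroup.coe_mul, this]
    rw [Subgroup.coe_map] at h1
    exact Set.Finite.of_finite_image h1 (Set.injOn_of_injective Subtype.val_injective)
  · intro d hd
    by_contra hinf
    apply hd
    -- the centralizer of `d` in `K` is infinite, so it has finite index in `G`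
    have h2 : ((Subgroup.centralizer {(d : G)} : Subgroup G) : Set G).Infinite := by
      have : ((fun x : K => (x : G)) '' {x : K | x * d = d * x}).Infinite :=
        Set.Infinite.image (Set.injOn_of_injective Subtype.val_injective) hinf
      apply this.mono
      rintro _ ⟨x, hx, rfl⟩
      rw [SetLike.mem_coe, Subgroup.mem_centralizer_singleton_iff]
      have := congrArg Subtype.val hx
      simpa using this
    have h3 : (d : G) ∈ FCc G := finiteIndex_of_infinite hG _ h2
    rw [Subgroup.mem_center_iff]
    intro x
    have h4 := x.2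
    rw [Subgroup.mem_iInf] at h4
    have h5 := h4 ⟨d, h3⟩
    rw [Subgroup.mem_centralizer_singleton_iff] at h5
    exact Subtype.ext (by simpa using h5)

end Pool.Agent.Q93.EF
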